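import Mathlib
import Pool.Agent.GPoly.Global

set_option autoImplicit false

/-!
# Uniform boundedness for polynomials of degree at least three with defective bad primes

`F` is a polynomial of degree `d ≥ 3` over the ring of integers `𝓞 K` of a number field `K`, with
leading coefficient `a`, and `b ∈ 𝓞 K` is nonzero.  Every polynomial of degree `d` over `K` is of
the form `F / b`, and all primes which do not divide `a b` are primes of good reduction.  If a fixed
proportion of `log N(a b)` comes from defective primes, then the number of preperiodic points of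
`F / b` in `K` is bounded in terms of `d`, this proportion and the degree of `K` only.
-/

namespace Pool.Agent.Results.MP_13bc7b_nt.DefectPolynomials

open NumberField IsDedekindDomain Polynomial Pool.Agent.GPoly

/-- The prime `v` is defective for `(F, b)`; `a` is the leading coefficient of `F` and `d` its
degree.  Either `b ∉ v`, `α := v(a) ≥ 1` and (`α = 1`, or the coefficient of `X ^ (d - 1)` is not in
`v` and `d - 1` does not divide `α`); or `a ∉ v`, `b ∈ v`, `F` has fewer than `d` distinct roots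
modulo `v`, and (`v(b) = 1` or all roots of `F` modulo `v` are simple). -/
def Defective {K : Type} [Field K] [NumberField K] (F : (𝓞 K)[X]) (b : 𝓞 K)
    (v : HeightOneSpectrum (𝓞 K)) : Prop :=
  (b ∉ v.asIdeal ∧ ∃ α : ℕ, 1 ≤ α ∧ F.leadingCoeff ∈ v.asIdeal ^ α ∧
    F.leadingCoeff ∉ v.asIdeal ^ (α + 1) ∧
    (α = 1 ∨ (F.coeff (F.natDegree - 1) ∉ v.asIdeal ∧ ¬ (F.natDegree - 1) ∣ α))) ∨
  (F.leadingCoeff ∉ v.asIdeal ∧ b ∈ v.asIdeal ∧
    {r : 𝓞 K ⧸ v.asIdeal |
      (F.map (Ideal.Quotient.mk v.asIdeal)).eval r = 0}.ncard < F.natDegree ∧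
    (b ∉ v.asIdeal ^ 2 ∨ ∀ r : 𝓞 K ⧸ v.asIdeal,
      (F.map (Ideal.Quotient.mk v.asIdeal)).eval r = 0 →
      (F.map (Ideal.Quotient.mk v.asIdeal)).derivative.eval r ≠ 0))

/-- For all `D`, `d ≥ 3` and `k` there is `C` such that for every number field `K` of degree at most
`D`, every `F` of degree `d` over `𝓞 K` with leading coefficient `a` and every nonzero `b` in `𝓞 K`:
if an ideal `J` which divides `(a b)` has only defective prime divisors and `N(a b) ≤ N(J) ^ k`,
then `x ↦ F(x) / b` has at most `C` preperiodic points in `K`. -/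
theorem result (D d k : ℕ) (hd : 3 ≤ d) : ∃ C : ℕ,
    ∀ (K : Type) [Field K] [NumberField K], Module.finrank ℚ K ≤ D →
    ∀ (F : (𝓞 K)[X]) (b : 𝓞 K), F.natDegree = d → b ≠ 0 →
    ∀ J : Ideal (𝓞 K), J ∣ Ideal.span {F.leadingCoeff * b} →
    (∀ v : HeightOneSpectrum (𝓞 K), v.asIdeal ∣ J → Defective F b v) →
    Ideal.absNorm (Ideal.span {F.leadingCoeff * b}) ≤ Ideal.absNorm J ^ k →
    ∀ S : Finset K, (∀ x ∈ S, ∃ m n : ℕ, m < n ∧
      (fun z : K => (F.map (algebraMap (𝓞 K) K)).eval z / algebraMap (𝓞 K) K b)^[m] x =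
      (fun z : K => (F.map (algebraMap (𝓞 K) K)).eval z / algebraMap (𝓞 K) K b)^[n] x) →
    S.card ≤ C := by
  obtain ⟨C, hC⟩ := bound_of_defect D d k hd
  refine ⟨C, ?_⟩
  intro K _ _ hK F b hF hb J hJ hdef hnorm S hS
  refine hC K hK F b hF hb J hJ ?_ hnorm S hS
  intro v hv _ T hT
  rcases hdef v hv with ⟨h1, α, h2, h3, h4, h5⟩ | ⟨h1, h2, h3, h4⟩
  · exact typeI_K F b hb d hd hF v h1 α h2 h3 h4 h5 T hT
  · exact typeII_K F b hb d hd hF v h1 h2 h3 h4 T hT

end Pool.Agent.Results.MP_13bc7b_nt.DefectPolynomials
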