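import Mathlib
import Pool.Agent.LIM.Prim
import Pool.Agent.LIM.ExPts
import Pool.Agent.LIM.ExVar

set_option autoImplicit false

/-!
# The number of preperiodic points of 100% of the members of an algebraic family

`K` is a number field, `𝓞 K` its ring of integers, `F` and `G` are polynomials of degree at most `d`
in `X` whose coefficients are polynomials in `s_1, …, s_r` over `𝓞 K`, and `R = Res_(d,d)(F, G)` is
not zero.  For `s ∈ ℤ^r` with `R(s) ≠ 0` they give a rational function `F_s / G_s` of degree `d` over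
`K`, a member of the family, and they give a rational function `F / G` of degree `d` over the field
`K(s_1, …, s_r)`, the generic member of the family.

From `Pool.Agent.RDF.Defs`: `lift d F G` is the homogeneous lift
`(x, y) ↦ (∑ F_i x^i y^(d-i), ∑ G_i x^i y^(d-i))` of `F / G`, and `wedge p q = p.1 * q.2 - q.1 * p.2`
is zero if and only if the vectors `p` and `q` are proportional.
-/

namespace Pool.Agent.Results.MP_13bc7b_nt.FamilyAverage

open Polynomial NumberField Filter Pool.Agent.RDF

/-- The integral points `s` with `|s_i| ≤ H`. -/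
noncomputable def Cube (r H : ℕ) : Finset (Fin r → ℤ) :=
  Fintype.piFinset fun _ => Finset.Icc (-(H : ℤ)) H

/-- `F_s`: the coefficients of `F` are evaluated at the integral point `s`. -/
noncomputable def spec {K : Type} [Field K] {r : ℕ} (s : Fin r → ℤ)
    (F : (MvPolynomial (Fin r) (𝓞 K))[X]) : (𝓞 K)[X] :=
  F.map (MvPolynomial.eval fun i => ((s i : ℤ) : 𝓞 K))

/-- The preperiodic points of `F / G` (coefficients in the subring `A` of the field `k`) in the
projective line over the algebraic closure of `k` which have degree at most `N` over `k`; the points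
of the projective line are written as `(x, 1)` and `(1, 0)`. -/
def Pts {A : Type} [CommRing A] (k : Type) [Field k] [Algebra A k] (N d : ℕ) (F G : A[X]) :
    Set (AlgebraicClosure k × AlgebraicClosure k) :=
  {p | (p.2 = 1 ∨ p = (1, 0)) ∧ (minpoly k p.1).natDegree ≤ N ∧ ∃ a b : ℕ, a < b ∧
    wedge ((lift d (F.map (algebraMap A _)) (G.map (algebraMap A _)))^[a] p)
      ((lift d (F.map (algebraMap A _)) (G.map (algebraMap A _)))^[b] p) = 0}

/-- The two components `F_n, G_n` of the `n`-th iterate of the lift `(F, G)` at `(X, 1)`, so that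
`F_n / G_n` is the `n`-th iterate of `F / G`. -/
noncomputable def iter {A : Type} [CommRing A] (d n : ℕ) (F G : A[X]) : A[X] × A[X] :=
  (lift d (F.map C) (G.map C))^[n] (X, 1)

/-- `x ≠ ∞` is a fixed point of `F / G` with multiplier `m = (F / G)'(x)`. -/
def IsMultiplier {A Ω : Type} [CommRing A] [Field Ω] [Algebra A Ω] (F G : A[X]) (x m : Ω) : Prop :=
  aeval x F = x * aeval x G ∧
    m * aeval x G ^ 2 = aeval x (derivative F) * aeval x G - aeval x F * aeval x (derivative G)

/-- In the extension `Ω` of the ring `A` of coefficients, a fixed point `x ≠ ∞` of some iterate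
`F_n / G_n`, `n ≥ 1`, has a multiplier `m = (F_n / G_n)'(x)` which is not algebraic over `ℚ`. -/
def VariesIn {A : Type} (Ω : Type) [CommRing A] [Field Ω] [Algebra A Ω] (d : ℕ) (F G : A[X]) :
    Prop :=
  ∃ n : ℕ, 1 ≤ n ∧ ∃ x m : Ω, IsMultiplier (iter d n F G).1 (iter d n F G).2 x m ∧
    Transcendental ℤ m

/-- The multiplier of a periodic point of the family varies: over the algebraic closure of
`K(s_1, …, s_r)` a fixed point `x ≠ ∞` of some iterate `F_n / G_n`, `n ≥ 1`, has a multiplier
`m = (F_n / G_n)'(x)` which is not algebraic over `ℚ`. -/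
def Varies {K : Type} [Field K] [NumberField K] {r : ℕ} (d : ℕ)
    (F G : (MvPolynomial (Fin r) (𝓞 K))[X]) : Prop :=
  VariesIn (AlgebraicClosure (FractionRing (MvPolynomial (Fin r) (𝓞 K)))) d F G

/-- A family of rational functions of degree `d ≥ 2`. -/
def IsFamily {A : Type} [CommRing A] (d : ℕ) (F G : A[X]) : Prop :=
  2 ≤ d ∧ F.natDegree ≤ d ∧ G.natDegree ≤ d ∧ resultant F G d d ≠ 0

/-- `F_s / G_s` is a member of the family: it has degree `d`, that is, `R(s) ≠ 0`. -/
def Member {K : Type} [Field K] {r : ℕ} (d : ℕ) (F G : (MvPolynomial (Fin r) (𝓞 K))[X])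
    (s : Fin r → ℤ) : Prop :=
  resultant (spec s F) (spec s G) d d ≠ 0

/-- `n(s)`: the number of preperiodic points of `F_s / G_s` of degree at most `N` over `K`. -/
noncomputable def num {K : Type} [Field K] [NumberField K] {r : ℕ} (N d : ℕ)
    (F G : (MvPolynomial (Fin r) (𝓞 K))[X]) (s : Fin r → ℤ) : ℕ :=
  (Pts K N d (spec s F) (spec s G)).ncard

/-- `n_gen`: the number of preperiodic points of `F / G` of degree at most `N` over
`K(s_1, …, s_r)`. -/
noncomputable def numGen {K : Type} [Field K] [NumberField K] {r : ℕ} (N d : ℕ)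
    (F G : (MvPolynomial (Fin r) (𝓞 K))[X]) : ℕ :=
  (Pts (FractionRing (MvPolynomial (Fin r) (𝓞 K))) N d F G).ncard

open Classical in
/-- The proportion of the `s ∈ T`, `|s_i| ≤ H`, which lie in `P`. -/
noncomputable def proportion {r : ℕ} (T P : Set (Fin r → ℤ)) (H : ℕ) : ℝ :=
  (((Cube r H).filter fun s => s ∈ T ∧ s ∈ P).card : ℝ) / ((Cube r H).filter fun s => s ∈ T).card

open Classical in
/-- The sum of `f(s)` over the `s ∈ T`, `|s_i| ≤ H`, with `s ∈ P`, divided by the number of all
`s ∈ T`, `|s_i| ≤ H`. -/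
noncomputable def mean {r : ℕ} (T P : Set (Fin r → ℤ)) (f : (Fin r → ℤ) → ℝ) (H : ℕ) : ℝ :=
  (∑ s ∈ (Cube r H).filter fun s => s ∈ T ∧ s ∈ P, f s) / ((Cube r H).filter fun s => s ∈ T).card

open Classical in
/-- The set `T` of integral points has positive lower density. -/
def PosDensity {r : ℕ} (T : Set (Fin r → ℤ)) : Prop :=
  ∃ c : ℝ, 0 < c ∧ ∃ H₀ : ℕ, ∀ H : ℕ, H₀ ≤ H →
    c * (2 * H + 1) ^ r ≤ ((Cube r H).filter fun s => s ∈ T).card

/-- The primitive integral points: no prime divides all coordinates. -/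
def primitive (r : ℕ) : Set (Fin r → ℤ) :=
  {s | ∀ p : ℕ, p.Prime → ∃ i, ¬ (p : ℤ) ∣ s i}

/-- The numerator `∑ s_i X^i` of the family of all rational functions of degree at most `d`. -/
noncomputable def allF (K : Type) [Field K] [NumberField K] (d : ℕ) :
    (MvPolynomial (Fin (d + 1 + (d + 1))) (𝓞 K))[X] :=
  ∑ i : Fin (d + 1), C (MvPolynomial.X (Fin.castAdd (d + 1) i)) * X ^ (i : ℕ)

/-- Its denominator `∑ s_(d+1+i) X^i`. -/
noncomputable def allG (K : Type) [Field K] [NumberField K] (d : ℕ) :
    (MvPolynomial (Fin (d + 1 + (d + 1))) (𝓞 K))[X] :=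
  ∑ i : Fin (d + 1), C (MvPolynomial.X (Fin.natAdd (d + 1) i)) * X ^ (i : ℕ)

theorem transcendental_int {Ω : Type} [Field Ω] (i : Algebra ℤ Ω) {m : Ω}
    (h : @Transcendental ℤ Ω _ _ (Ring.toIntAlgebra Ω) m) : @Transcendental ℤ Ω _ _ i m := by
  have hi : i = Ring.toIntAlgebra Ω := Subsingleton.elim _ _
  subst hi
  exact h

theorem pts_spec {K : Type} [Field K] [NumberField K] {r : ℕ} (N d : ℕ)
    (F G : (MvPolynomial (Fin r) (𝓞 K))[X]) (s : Fin r → ℤ) :
    Pool.Agent.LIM.Pts K N d (Pool.Agent.LIM.toK (Pool.Agent.FamK.spec s F))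
      (Pool.Agent.LIM.toK (Pool.Agent.FamK.spec s G)) = Pts K N d (spec s F) (spec s G) := by
  unfold Pts Pool.Agent.LIM.Pts Pool.Agent.LIM.toK
  rw [Polynomial.map_map, Polynomial.map_map, ← IsScalarTower.algebraMap_eq]
  rfl

theorem pts_gen {K : Type} [Field K] [NumberField K] {r : ℕ} (N d : ℕ)
    (F G : (MvPolynomial (Fin r) (𝓞 K))[X]) :
    Pool.Agent.LIM.Pts (Pool.Agent.LIM.GF r K) N d (Pool.Agent.LIM.toG F)
      (Pool.Agent.LIM.toG G) = Pts (FractionRing (MvPolynomial (Fin r) (𝓞 K))) N d F G := by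
  unfold Pts Pool.Agent.LIM.Pts Pool.Agent.LIM.toG
  rw [Polynomial.map_map, Polynomial.map_map, ← IsScalarTower.algebraMap_eq]

/-- The part on one family. -/
theorem family {K : Type} [Field K] [NumberField K] (N : ℕ) {r d : ℕ}
    (F G : (MvPolynomial (Fin r) (𝓞 K))[X]) (h : IsFamily d F G)
    (hv : Pool.Agent.FamK.Varies d F G) :
    (∀ s, Member d F G s → (Pts K N d (spec s F) (spec s G)).Finite) ∧
    (Pts (FractionRing (MvPolynomial (Fin r) (𝓞 K))) N d F G).Finite ∧
    (∃ C : ℝ, ∀ H : ℕ, 1 ≤ H → mean Set.univ {s | Member d F G s}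
      (fun s => Real.exp ((num N d F G s : ℝ) ^ ((1 : ℝ) / 3))) H ≤ C) ∧
    ∀ T : Set (Fin r → ℤ), PosDensity T →
      Tendsto (proportion T {s | Member d F G s ∧ num N d F G s = numGen N d F G}) atTop
        (nhds 1) ∧
      ∀ φ : ℕ → ℝ, (∀ m : ℕ, |φ m| ≤ Real.exp ((m : ℝ) ^ ((1 : ℝ) / 4))) →
        Tendsto (mean T {s | Member d F G s} fun s => φ (num N d F G s)) atTop
          (nhds (φ (numGen N d F G))) := by
  classical
  obtain ⟨hd, hF, hG, hR⟩ := h
  have hm : ∀ s, Pool.Agent.FamK.ev s (resultant F G d d) ≠ 0 ↔ Member d F G s := fun s => by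
    rw [← Pool.Agent.FamK.spec_res]
    rfl
  have hφ : ∀ T : Set (Fin r → ℤ), PosDensity T → ∀ φ : ℕ → ℝ,
      (∀ m : ℕ, |φ m| ≤ Real.exp ((m : ℝ) ^ ((1 : ℝ) / 4))) →
      Tendsto (mean T {s | Member d F G s} fun s => φ (num N d F G s)) atTop
        (nhds (φ (numGen N d F G))) := by
    rintro T ⟨c, hc, H₀, hT⟩ φ hφ
    have h1 := Pool.Agent.LIM.limit_along N hd F G hF hG hR hv T c hc H₀ hT φ hφ
    simp only [pts_spec, pts_gen, hm] at h1
    exact h1
  refine ⟨fun s hs => ?_, ?_, ?_, fun T hT => ⟨?_, hφ T hT⟩⟩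
  · have h1 := (Pool.Agent.LIM.limit N hd F G hF hG hR hv).1 s ((hm s).2 hs)
    rwa [pts_spec] at h1
  · have h1 := (Pool.Agent.LIM.limit N hd F G hF hG hR hv).2.1
    rwa [pts_gen] at h1
  · obtain ⟨C, hC⟩ := (Pool.Agent.FamK.average N hd F G hF hG hR hv).2
    refine ⟨C, fun H hH => ?_⟩
    have h1 := hC H hH
    unfold mean
    simp only [Set.mem_univ, true_and, Finset.filter_true, Set.mem_ofPred_eq]
    have h2 : ((Cube r H).card : ℝ) = (2 * (H : ℝ) + 1) ^ r := Pool.Agent.LIM.PrimA.card_cube r H
    rw [h2, div_le_iff₀ (by positivity)]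
    simp only [Pool.Agent.LIM.pts_famK, pts_spec, hm] at h1
    exact h1
  · have h1 := hφ T hT (fun n => if n = numGen N d F G then 1 else 0) fun n => by
      have h2 : (1 : ℝ) ≤ Real.exp ((n : ℝ) ^ ((1 : ℝ) / 4)) := Real.one_le_exp (by positivity)
      by_cases h3 : n = numGen N d F G
      · simpa [h3] using h2
      · simp [h3, Real.exp_nonneg]
    have h2 : mean T {s | Member d F G s} (fun s => if num N d F G s = numGen N d F G then 1
        else 0) = proportion T {s | Member d F G s ∧ num N d F G s = numGen N d F G} := by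
      funext H
      unfold mean proportion
      congr 1
      rw [Finset.sum_boole, Finset.filter_filter]
      simp only [Set.mem_ofPred_eq, and_assoc]
    rw [h2] at h1
    simpa using h1

/-- The resultant of the family of all rational functions is not zero. -/
theorem res_all (K : Type) [Field K] [NumberField K] (d : ℕ) :
    resultant (allF K d) (allG K d) d d ≠ 0 := by
  intro h0
  obtain ⟨s, hs⟩ : ∃ s : Fin (d + 1 + (d + 1)) → ℤ, s = Fin.append
      (fun i : Fin (d + 1) => if i = Fin.last d then 1 else 0)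
      (fun i : Fin (d + 1) => if i = 0 then 1 else 0) := ⟨_, rfl⟩
  have e1 : ∀ i : Fin (d + 1), s (Fin.castAdd (d + 1) i) = if i = Fin.last d then 1 else 0 :=
    fun i => by rw [hs, Fin.append_left]
  have e2 : ∀ i : Fin (d + 1), s (Fin.natAdd (d + 1) i) = if i = 0 then 1 else 0 :=
    fun i => by rw [hs, Fin.append_right]
  have hF : spec s (allF K d) = X ^ d := by
    unfold spec allF
    rw [Polynomial.map_sum, Finset.sum_eq_single (Fin.last d)]
    · rw [Polynomial.map_mul, Polynomial.map_C, MvPolynomial.eval_X, e1, Polynomial.map_pow,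
        Polynomial.map_X, if_pos rfl, Int.cast_one, C_1, one_mul, Fin.val_last]
    · intro i _ hi
      rw [Polynomial.map_mul, Polynomial.map_C, MvPolynomial.eval_X, e1, if_neg hi, Int.cast_zero,
        C_0, zero_mul]
    · intro h
      exact absurd (Finset.mem_univ _) h
  have hG : spec s (allG K d) = 1 := by
    unfold spec allG
    rw [Polynomial.map_sum, Finset.sum_eq_single 0]
    · rw [Polynomial.map_mul, Polynomial.map_C, MvPolynomial.eval_X, e2, Polynomial.map_pow,
        Polynomial.map_X, if_pos rfl, Int.cast_one, C_1, one_mul, Fin.val_zero, pow_zero]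
    · intro i _ hi
      rw [Polynomial.map_mul, Polynomial.map_C, MvPolynomial.eval_X, e2, if_neg hi, Int.cast_zero,
        C_0, zero_mul]
    · intro h
      exact absurd (Finset.mem_univ _) h
  have h1 : resultant (spec s (allF K d)) (spec s (allG K d)) d d = 0 := by
    unfold spec
    rw [resultant_map_map, h0, map_zero]
  rw [hF, hG, resultant_one_right, coeff_X_pow_self, one_pow] at h1
  exact one_ne_zero h1

/-- Let `K` be a number field and `N` a natural number.

(A) In every algebraic family `F_s / G_s` of rational functions of degree `d ≥ 2` over `K` in which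
the multiplier of a periodic point varies, let `n(s)` be the number of preperiodic points of
`F_s / G_s` of degree at most `N` over `K`, and `n_gen` the number of preperiodic points of the
generic member `F / G` of degree at most `N` over `K(s_1, …, s_r)`.  Both are finite, the mean of
`exp (n(s) ^ (1/3))` over the integral `s` with `|s_i| ≤ H` is bounded, and for every set `T` of `s`
of positive lower density 100% of the `s ∈ T` have `n(s) = n_gen`, and for every function `φ` with
`|φ(m)| ≤ exp (m ^ (1/4))` the mean of `φ(n(s))` over the `s ∈ T` tends to `φ(n_gen)`.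

(B) 100% of all rational functions of degree `d > N`, `d ≥ 2`, with integral coefficients have no
preperiodic point of degree at most `N` over `K`.

(C) The primitive `s` (for `r ≥ 2`) are a set of positive lower density. -/
theorem result {K : Type} [Field K] [NumberField K] (N : ℕ) :
    (∀ (r d : ℕ) (F G : (MvPolynomial (Fin r) (𝓞 K))[X]), IsFamily d F G → Varies d F G →
      (∀ s, Member d F G s → (Pts K N d (spec s F) (spec s G)).Finite) ∧
      (Pts (FractionRing (MvPolynomial (Fin r) (𝓞 K))) N d F G).Finite ∧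
      (∃ C : ℝ, ∀ H : ℕ, 1 ≤ H → mean Set.univ {s | Member d F G s}
        (fun s => Real.exp ((num N d F G s : ℝ) ^ ((1 : ℝ) / 3))) H ≤ C) ∧
      ∀ T : Set (Fin r → ℤ), PosDensity T →
        Tendsto (proportion T {s | Member d F G s ∧ num N d F G s = numGen N d F G}) atTop
          (nhds 1) ∧
        ∀ φ : ℕ → ℝ, (∀ m : ℕ, |φ m| ≤ Real.exp ((m : ℝ) ^ ((1 : ℝ) / 4))) →
          Tendsto (mean T {s | Member d F G s} fun s => φ (num N d F G s)) atTop
            (nhds (φ (numGen N d F G)))) ∧
    (∀ d : ℕ, 2 ≤ d → N < d → ∀ T : Set (Fin (d + 1 + (d + 1)) → ℤ), PosDensity T →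
      Tendsto (proportion T {s | Member d (allF K d) (allG K d) s ∧
        Pts K N d (spec s (allF K d)) (spec s (allG K d)) = ∅}) atTop (nhds 1)) ∧
    (∀ r : ℕ, PosDensity (Set.univ : Set (Fin r → ℤ))) ∧
    ∀ r : ℕ, 2 ≤ r → PosDensity (primitive r) := by
  refine ⟨fun r d F G h hv => ?_, fun d hd hN T hT => ?_, fun r => ?_, fun r hr => ?_⟩
  · obtain ⟨n, hn, x, m, ⟨h1, h2⟩, h3⟩ := hv
    exact family N F G h ⟨n, hn, x, m, h1, h2, transcendental_int _ h3⟩
  · have hf : IsFamily d (allF K d) (allG K d) :=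
      ⟨hd, Pool.Agent.LIM.Ex.natDegree_allF K d, Pool.Agent.LIM.Ex.natDegree_allG K d, res_all K d⟩
    have h1 := family N (allF K d) (allG K d) hf (Pool.Agent.LIM.Ex.varies_all K d hd)
    have h2 : numGen N d (allF K d) (allG K d) = 0 := by
      unfold numGen
      rw [← pts_gen]
      have h3 := Pool.Agent.LIM.Ex.pts_empty K N d hd hN
      exact (congrArg Set.ncard h3).trans (Set.ncard_empty _)
    have h3 := (h1.2.2.2 T hT).1
    rw [h2] at h3
    have h4 : {s | Member d (allF K d) (allG K d) s ∧ num N d (allF K d) (allG K d) s = 0} =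
        {s | Member d (allF K d) (allG K d) s ∧
          Pts K N d (spec s (allF K d)) (spec s (allG K d)) = ∅} := by
      ext s
      refine and_congr_right fun hs => ?_
      exact Set.ncard_eq_zero (h1.1 s hs)
    rw [← h4]
    exact h3
  · refine ⟨1, one_pos, 0, fun H _ => ?_⟩
    have h2 : ((Cube r H).card : ℝ) = (2 * (H : ℝ) + 1) ^ r := Pool.Agent.LIM.PrimA.card_cube r H
    simp only [Set.mem_univ, Finset.filter_true, h2, one_mul, le_refl]
  · exact ⟨1 / 18, by norm_num, 1, fun H hH => Pool.Agent.LIM.PrimA.dens r H hr hH⟩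

end Pool.Agent.Results.MP_13bc7b_nt.FamilyAverage
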