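import Pool.Agent.PQ.Final

set_option autoImplicit false

/-!
# Preperiodic points of bounded degree of polynomials

`F` is a polynomial of degree `d` over the ring of integers of a number field `K`, with leading
coefficient `a`, and `b ≠ 0` is an integer of `K`. All the points of degree at most `N` over `K`
which are preperiodic for `F / b` are counted together.
-/

namespace Pool.Agent.Results.MP_13bc7b_nt.PolynomialPoints

open Polynomial NumberField IsDedekindDomain

/-- The point `x` is preperiodic for `f`. -/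
def Preperiodic {α : Type} (f : α → α) (x : α) : Prop := ∃ m n : ℕ, m < n ∧ f^[m] x = f^[n] x

variable {K : Type} [Field K] [NumberField K]

/-- The prime `v` is harmless for `F / b`: it does not divide `b`, and
`(d - 1) v(c_j) ≥ (j - 1) v(a)` for all `j ≥ 2`, where `F = ∑ c_j X ^ j`, `d = deg F` and `a` is the
leading coefficient. -/
def Harmless (F : (𝓞 K)[X]) (b : 𝓞 K) (v : HeightOneSpectrum (𝓞 K)) : Prop :=
  b ∉ v.asIdeal ∧ ∀ j, 2 ≤ j →
    v.intValuation (F.coeff j) ^ (F.natDegree - 1) ≤ v.intValuation F.leadingCoeff ^ (j - 1)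

/-- The prime `v` is defective for `F / b`: either it does not divide `b`, it divides the leading
coefficient, but not with multiplicity greater than `k`, and it is not harmless; or it divides `b`
and not the leading coefficient, and `F` modulo `v` has an irreducible factor of degree greater
than `N`. -/
def Defective (k N : ℕ) (F : (𝓞 K)[X]) (b : 𝓞 K) (v : HeightOneSpectrum (𝓞 K)) : Prop :=
  (b ∉ v.asIdeal ∧ F.leadingCoeff ∈ v.asIdeal ∧ F.leadingCoeff ∉ v.asIdeal ^ (k + 1) ∧
    ¬ Harmless F b v) ∨
  (F.leadingCoeff ∉ v.asIdeal ∧ b ∈ v.asIdeal ∧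
    ∃ h : (𝓞 K ⧸ v.asIdeal)[X], Irreducible h ∧ N < h.natDegree ∧
      h ∣ F.map (Ideal.Quotient.mk v.asIdeal))

theorem pre_eq {K : Type} [Field K] (F : (𝓞 K)[X]) (b : 𝓞 K) (x : AlgebraicClosure K) :
    Preperiodic (fun z => aeval z F / algebraMap (𝓞 K) (AlgebraicClosure K) b) x ↔
      PQ.PreE (AlgebraicClosure K) F b x := by
  have h : (fun z => aeval z F / algebraMap (𝓞 K) (AlgebraicClosure K) b) =
      fun z => (PQ.fE (AlgebraicClosure K) F b).eval z := by
    funext z
    rw [PQ.fE, GPoly.fp, Polynomial.map_mul, map_C, eval_mul, eval_C, map_inv₀, map_map,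
      ← IsScalarTower.algebraMap_apply, ← IsScalarTower.algebraMap_eq, eval_map_algebraMap,
      div_eq_inv_mul]
  rw [Preperiodic, PQ.PreE, GPoly.Pre, h]

/-- All the preperiodic points of degree at most `N` together. -/
theorem result (D N d k s : ℕ) (hd : 2 ≤ d) : ∃ C : ℕ,
    ∀ (K : Type) [Field K] [NumberField K], Module.finrank ℚ K ≤ D →
    ∀ (F : (𝓞 K)[X]) (b : 𝓞 K), F.natDegree = d → b ≠ 0 →
    ∀ I M J : Ideal (𝓞 K), I * M = Ideal.span {F.leadingCoeff * b} →
    {v : HeightOneSpectrum (𝓞 K) | v.asIdeal ∣ M ∧ ¬ Harmless F b v ∧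
      ¬ Defective k N F b v}.ncard ≤ s →
    J ∣ Ideal.span {F.leadingCoeff * b} →
    (∀ v : HeightOneSpectrum (𝓞 K), v.asIdeal ∣ J → Defective k N F b v) →
    Ideal.absNorm I ≤ Ideal.absNorm J ^ k →
    {x : AlgebraicClosure K | (minpoly K x).natDegree ≤ N ∧
      Preperiodic (fun z => aeval z F / algebraMap (𝓞 K) (AlgebraicClosure K) b) x}.encard
        ≤ C := by
  rcases Nat.eq_zero_or_pos N with hN | hN
  · refine ⟨0, fun K _ _ hK F b hF hb I M J hIM hs hJ hdef hnorm => ?_⟩
    rw [Nat.cast_zero, nonpos_iff_eq_zero, Set.encard_eq_zero]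
    refine Set.eq_empty_of_forall_notMem fun x hx => ?_
    have h1 := minpoly.natDegree_pos (A := K) (x := x) (Algebra.IsIntegral.isIntegral x)
    have h2 := hx.1
    omega
  · obtain ⟨C, hC⟩ := PQ.main_R D N d k s hN hd
    refine ⟨C, fun K _ _ hK F b hF hb I M J hIM hs hJ hdef hnorm => ?_⟩
    have e : {x : AlgebraicClosure K | (minpoly K x).natDegree ≤ N ∧
        Preperiodic (fun z => aeval z F / algebraMap (𝓞 K) (AlgebraicClosure K) b) x} =
        {x : AlgebraicClosure K | (minpoly K x).natDegree ≤ N ∧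
          PQ.PreE (AlgebraicClosure K) F b x} := by
      ext x
      exact and_congr_right fun _ => pre_eq F b x
    rw [e]
    exact hC K hK F b hF hb I M J hIM hs hJ hdef hnorm

end Pool.Agent.Results.MP_13bc7b_nt.PolynomialPoints
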