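import Mathlib
import Pool.Agent.PND.Main

set_option autoImplicit false

/-!
# Preperiodic points of morphisms of projective space with defective bad primes

`F_0, …, F_N` are forms of degree `d` over the ring of integers `𝓞 K` of a number field `K` without
a common zero in projective space over an algebraic closure, and `Φ = (F_0, …, F_N)`.  The
definitions of `Pool.Agent.PND.Defs` are used: `phi F` is the map `x ↦ (F_0(x), …, F_N(x))` of
vectors, `mp f F` is `F` with the coefficients mapped by a ring homomorphism `f`, `Par x y` says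
that the vectors `x` and `y` are proportional, `cof d F` is the vector of the coefficients of
`F_0, …, F_N`, `Preper F x` says that `x` is a nonzero vector whose class in projective space is
preperiodic, and `Defective d k F v` says that the prime `v` is `k`-defective.
-/

namespace Pool.Agent.Results.MP_13bc7b_nt.ProjectiveMorphisms

open NumberField IsDedekindDomain Pool.Agent.PND

/-- The vectors of the set `S` give at most `n` points of projective space. -/
def AtMost {R : Type*} [CommRing R] {N : ℕ} (n : ℕ) (S : Set (Fin (N + 1) → R)) : Prop :=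
  ∀ T : Finset (Fin (N + 1) → R), (∀ x ∈ T, x ∈ S) →
    (∀ x ∈ T, ∀ y ∈ T, x ≠ y → ¬ Par x y) → T.card ≤ n

/-- The nonzero common zeros of the forms of the set `W` over an algebraic closure. -/
def zeros {K : Type} [Field K] {N : ℕ} (W : Set (MvPolynomial (Fin (N + 1)) K)) :
    Set (Fin (N + 1) → AlgebraicClosure K) :=
  {z | z ≠ 0 ∧ ∀ P ∈ W, MvPolynomial.aeval z P = 0}

/-- `F_0, …, F_N` over `𝓞 K` as forms over an algebraic closure of `K`. -/
noncomputable abbrev bar {K : Type} [Field K] [NumberField K] {N : ℕ}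
    (F : Fin (N + 1) → MvPolynomial (Fin (N + 1)) (𝓞 K)) :
    Fin (N + 1) → MvPolynomial (Fin (N + 1)) (AlgebraicClosure K) :=
  mp (algebraMap (𝓞 K) (AlgebraicClosure K)) F

/-- `F_0, …, F_N` over `𝓞 K` as forms over `K`. -/
noncomputable abbrev overK {K : Type} [Field K] [NumberField K] {N : ℕ}
    (F : Fin (N + 1) → MvPolynomial (Fin (N + 1)) (𝓞 K)) :
    Fin (N + 1) → MvPolynomial (Fin (N + 1)) K :=
  mp (algebraMap (𝓞 K) K) F

/-- All preperiodic points of `Φ` in `P^N(K)` lie in a proper infinite algebraic subset `Z` of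
`P^N` with `Φ(Z) ⊆ Z`, cut out by forms over `K` of degree `e`. -/
def InvariantSet {K : Type} [Field K] [NumberField K] {N : ℕ} (e : ℕ)
    (F : Fin (N + 1) → MvPolynomial (Fin (N + 1)) (𝓞 K)) : Prop :=
  ∃ W : Set (MvPolynomial (Fin (N + 1)) K), (∀ P ∈ W, P.IsHomogeneous e) ∧ (∃ P ∈ W, P ≠ 0) ∧
    (∀ P ∈ W, ∀ x, Preper (overK F) x → MvPolynomial.eval x P = 0) ∧
    (∀ z ∈ zeros W, phi (bar F) z ∈ zeros W) ∧ ∀ n, ¬ AtMost n (zeros W)

/-- For all `D`, `N ≥ 1`, `d ≥ 2` and `k` there is `C` such that for every number field `K` of degree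
at most `D`, every morphism `Φ` of `P^N` of degree `d` over `𝓞 K` and every squarefree ideal `J`
different from `(1)` with only `k`-defective prime divisors, such that the (relative,
multiplicative) height of the vector of the coefficients of `Φ` is at most `N(J) ^ k`: either `Φ`
has at most `C` preperiodic points in `P^N(K)`; or all of them lie in a proper infinite algebraic
subset `Z` of `P^N` with `Φ(Z) ⊆ Z` which is cut out by forms over `K` of one degree `e ≤ C`. -/
theorem result (D N d k : ℕ) (hN : 1 ≤ N) (hd : 2 ≤ d) : ∃ C : ℕ,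
    ∀ (K : Type) [Field K] [NumberField K], Module.finrank ℚ K ≤ D →
    ∀ F : Fin (N + 1) → MvPolynomial (Fin (N + 1)) (𝓞 K), (∀ i, (F i).IsHomogeneous d) →
    (∀ z, phi (bar F) z = 0 → z = 0) →
    ∀ J : Ideal (𝓞 K), Squarefree J → J ≠ ⊤ →
    (∀ v : HeightOneSpectrum (𝓞 K), v.asIdeal ∣ J → Defective d k F v) →
    Height.mulHeight (cof d (overK F)) ≤ (Ideal.absNorm J : ℝ) ^ k →
    AtMost C {x | Preper (overK F) x} ∨ ∃ e ≤ C, InvariantSet e F := by
  obtain ⟨C, hC⟩ := main D N d k hN hd
  refine ⟨C, ?_⟩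
  intro K _ _ hK F hF hbar J hJ hJ1 hdef hH
  rcases hC K hK F hF hbar J hJ hJ1 hdef hH with h | ⟨e, W, he, hW, hW0, hWS, hinv, hinf⟩
  · exact Or.inl fun T hT hTw => h T hT hTw
  · refine Or.inr ⟨e, he, W, hW, hW0, hWS, ?_, ?_⟩
    · rintro z ⟨hz, hzW⟩
      exact ⟨fun h0 => hz (hbar z h0), hinv z hzW⟩
    · intro n hn
      obtain ⟨T, hT, hT1, hT2⟩ := hinf (n + 1)
      have := hn T (fun x hx => hT1 x hx) hT2
      omega

end Pool.Agent.Results.MP_13bc7b_nt.ProjectiveMorphisms
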