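import Pool.Agent.UBQS.Final
import Pool.Agent.UBC.Card

/-!
# Uniform boundedness of periodic points of degree at most two for compositions of `H(z ^ r) + c`
-/

open Polynomial

namespace Pool.Agent.Results.MP_13bc7b_nt.QuadraticPeriodic

/-- Let `K` be a number field, `r ≥ 6`, `m ≥ 1` and `T` a finite set of polynomials of degree `m`
over `K`.  There is a number `B` such that for every `c` in `K` and every nonempty finite list `l` of
elements of `T`, at most `B` elements of degree at most `2` over `K` of an algebraic closure of `K`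
are periodic points of the composition of the maps `w ↦ H(w ^ r) + c`, `H` in `l` (in the order of
the list).  The number `B` does not depend on `c` or on the length of the list. -/
theorem result (K : Type*) [Field K] [NumberField K] (r m : ℕ) (hr : 6 ≤ r) (hm : 1 ≤ m)
    (T : Finset K[X]) (hT : ∀ H ∈ T, H.natDegree = m) :
    ∃ B : ℕ, ∀ (c : K) (l : List K[X]), l ≠ [] → (∀ H ∈ l, H ∈ T) →
      {x : AlgebraicClosure K | (minpoly K x).natDegree ≤ 2 ∧ ∃ k : ℕ, 0 < k ∧
        (fun z : AlgebraicClosure K =>
          l.foldl (fun w H => aeval (w ^ r) H + algebraMap K _ c) z)^[k] x = x}.encard ≤ B := by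
  obtain ⟨B, hB⟩ := UBQS.quadratic_all K hr hm T hT
  refine ⟨B, fun c l hl hlT => UBC.encard_le_of_finset fun P hP =>
    hB c l ⟨hl, hlT⟩ P fun x hx => ?_⟩
  obtain ⟨h1, k, hk, h2⟩ := hP x hx
  refine ⟨h1, k, hk, ?_⟩
  have h3 : UBC.compF r (algebraMap K (AlgebraicClosure K) c)
      (l.map (Polynomial.map (algebraMap K (AlgebraicClosure K)))) =
      fun z : AlgebraicClosure K =>
        l.foldl (fun w H => aeval (w ^ r) H + algebraMap K _ c) z := by
    funext z
    unfold UBC.compF
    rw [List.foldl_map]
    simp only [eval_map_algebraMap]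
  rw [h3]
  exact h2

end Pool.Agent.Results.MP_13bc7b_nt.QuadraticPeriodic
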