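import Mathlib
import Pool.Agent.RDF.NMain

set_option autoImplicit false

/-!
# Uniform boundedness for rational functions with defective bad primes, points of bounded degree

`F` and `G` are polynomials of degree at most `d` over the ring of integers `𝓞 K` of a number field
`K`, with nonzero resultant `R` (for the formal degrees `d, d`), and `Φ = (F, G)` is the homogeneous
lift of the rational function `F / G` of degree `d`: `Φ(x, y) = (∑ F_i x^i y^(d-i), ∑ G_i x^i y^(d-i))`
(`lift d F G` in `Pool.Agent.RDF.Defs`, where the other auxiliary definitions are).  All primes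
which do not divide `R` are primes of good reduction.
-/

namespace Pool.Agent.Results.MP_13bc7b_nt.RationalFunctions

open NumberField IsDedekindDomain Polynomial Pool.Agent.RDF

/-- The prime `v` is `(N, k)`-defective for `F / G`.  Either `F` and `G` have, modulo `v`, no common
zero in the projective line of degree at most `N` over the residue field `𝓞 K / v`: no common
irreducible factor of degree at most `N`, and not both coefficients of `X ^ d` in `v`.  Or `F` and
`G` are linearly independent modulo `v`, the resultant is not in `v ^ (k + 1)`, and for some `j ≤ k`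
both components of `Φ^j(X, 1)` are divisible modulo `v` by an irreducible polynomial of degree
greater than `N`: the iterate `Φ^j` modulo `v` has a zero of degree greater than `N`. -/
def Defective {K : Type} [Field K] [NumberField K] (d N k : ℕ) (F G : (𝓞 K)[X])
    (v : HeightOneSpectrum (𝓞 K)) : Prop :=
  ((∀ h : (𝓞 K ⧸ v.asIdeal)[X], Irreducible h → h ∣ F.map (Ideal.Quotient.mk v.asIdeal) →
      h ∣ G.map (Ideal.Quotient.mk v.asIdeal) → N < h.natDegree) ∧
    (F.coeff d ∉ v.asIdeal ∨ G.coeff d ∉ v.asIdeal)) ∨
  ((∃ i j, F.coeff i * G.coeff j - F.coeff j * G.coeff i ∉ v.asIdeal) ∧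
    resultant F G d d ∉ v.asIdeal ^ (k + 1) ∧
    ∃ (h : (𝓞 K ⧸ v.asIdeal)[X]) (j : ℕ), Irreducible h ∧ N < h.natDegree ∧ j ≤ k ∧
      h ∣ ((lift d (F.map C) (G.map C))^[j] (X, 1)).1.map (Ideal.Quotient.mk v.asIdeal) ∧
      h ∣ ((lift d (F.map C) (G.map C))^[j] (X, 1)).2.map (Ideal.Quotient.mk v.asIdeal))

/-- For all `D`, `N`, `k` and `d ≥ 2` there is `C` such that for every number field `K` of degree at
most `D` and all `F`, `G` of degree at most `d` over `𝓞 K` with nonzero resultant: if an ideal `J`
different from `(1)` which divides the resultant has only `(N, k)`-defective prime divisors, and the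
(relative, multiplicative) height of the vector of the coefficients of `F` and `G` is at most
`N(J) ^ k`, then the extensions of `K` of degree at most `N` contain together at most `C` points of
the projective line which are preperiodic under `F / G`.  The points are represented by vectors over
a number field `L`, an arbitrary extension of `K`, no two of which are proportional; `DegLe K N p`
says that both coordinates of `p` lie in a subextension of degree at most `N` over `K`. -/
theorem result (D d N k : ℕ) (hd : 2 ≤ d) : ∃ C : ℕ,
    ∀ (K : Type) [Field K] [NumberField K], Module.finrank ℚ K ≤ D →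
    ∀ F G : (𝓞 K)[X], F.natDegree ≤ d → G.natDegree ≤ d → resultant F G d d ≠ 0 →
    ∀ J : Ideal (𝓞 K), J ∣ Ideal.span {resultant F G d d} → J ≠ ⊤ →
    (∀ v : HeightOneSpectrum (𝓞 K), v.asIdeal ∣ J → Defective d N k F G v) →
    Height.mulHeight (coeffs d (F.map (algebraMap (𝓞 K) K)) (G.map (algebraMap (𝓞 K) K))) ≤
      (Ideal.absNorm J : ℝ) ^ k →
    ∀ (L : Type) [Field L] [NumberField L] [Algebra K L], ∀ S : Finset (L × L),
      (∀ p ∈ S, DegLe K N p ∧
        Preper d (F.map (algebraMap (𝓞 K) L)) (G.map (algebraMap (𝓞 K) L)) p) →
      (∀ p ∈ S, ∀ q ∈ S, p ≠ q → wedge p q ≠ 0) → S.card ≤ C := by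
  obtain ⟨C, hC⟩ := main_N D d N k hd
  refine ⟨C, ?_⟩
  intro K _ _ hK F G hF hG hR J hJ hJ1 hdef hH L _ _ _ S hS hSw
  exact hC K hK F G hF hG hR J hJ hJ1 hdef hH L S
    (fun p hp => ⟨(hS p hp).2.1, (hS p hp).1, (hS p hp).2.2⟩) hSw

end Pool.Agent.Results.MP_13bc7b_nt.RationalFunctions
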