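import Mathlib
import Pool.Agent.RI.GMain
import Pool.Agent.RDF.Main

set_option autoImplicit false

/-!
# Preperiodic points of bounded degree of rational functions, without a height condition

`F` and `G` are polynomials of degree at most `d` over the ring of integers `𝓞 K` of a number field
`K`, with nonzero resultant `R` (for the formal degrees `d, d`), and `Φ = (F, G)` is the homogeneous
lift of the rational function `F / G` of degree `d`: `Φ(x, y) = (∑ F_i x^i y^(d-i), ∑ G_i x^i y^(d-i))`
(`lift d F G` in `Pool.Agent.RDF.Defs`, where `wedge` is too; `DegLe` is in `Pool.Agent.RDF.NDefs`,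
`Preper` in `Pool.Agent.RDF.Main`, `act g p = g p` in `Pool.Agent.RI.Conj`).  All primes which do
not divide `R` are primes of good reduction.
-/

namespace Pool.Agent.Results.MP_13bc7b_nt.RationalMaps

open NumberField IsDedekindDomain Polynomial Pool.Agent.RDF Pool.Agent.RI

/-- The prime `v` is `(N, k)`-defective for `F / G`.  Either `F` and `G` have, modulo `v`, no common
zero in the projective line of degree at most `N` over the residue field `𝓞 K / v`: no common
irreducible factor of degree at most `N`, and not both coefficients of `X ^ d` in `v`.  Or `F` and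
`G` are linearly independent modulo `v`, the resultant is not in `v ^ (k + 1)`, and for some `j ≤ k`
both components of `Φ^j(X, 1)` are divisible modulo `v` by an irreducible polynomial of degree
greater than `N`: the iterate `Φ^j` modulo `v` has a zero of degree greater than `N`. -/
def Defective {K : Type} [Field K] [NumberField K] (d N k : ℕ) (F G : (𝓞 K)[X])
    (v : HeightOneSpectrum (𝓞 K)) : Prop :=
  ((∀ h : (𝓞 K ⧸ v.asIdeal)[X], Irreducible h → h ∣ F.map (Ideal.Quotient.mk v.asIdeal) →
      h ∣ G.map (Ideal.Quotient.mk v.asIdeal) → N < h.natDegree) ∧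
    (F.coeff d ∉ v.asIdeal ∨ G.coeff d ∉ v.asIdeal)) ∨
  ((∃ i j, F.coeff i * G.coeff j - F.coeff j * G.coeff i ∉ v.asIdeal) ∧
    resultant F G d d ∉ v.asIdeal ^ (k + 1) ∧
    ∃ (h : (𝓞 K ⧸ v.asIdeal)[X]) (j : ℕ), Irreducible h ∧ N < h.natDegree ∧ j ≤ k ∧
      h ∣ ((lift d (F.map C) (G.map C))^[j] (X, 1)).1.map (Ideal.Quotient.mk v.asIdeal) ∧
      h ∣ ((lift d (F.map C) (G.map C))^[j] (X, 1)).2.map (Ideal.Quotient.mk v.asIdeal))

/-- `F / G` has potentially good reduction at `v`: over some number field `L` containing `K` there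
are an invertible `2 × 2` matrix `g`, a constant `t ≠ 0` and polynomials `F'`, `G'` of degree at most
`d` over `𝓞 L` with `(F', G') = t g⁻¹ ∘ (F, G) ∘ g` (as homogeneous maps of `L²`), whose resultant is
in no prime of `L` above `v`. -/
def PotGood {K : Type} [Field K] [NumberField K] (d : ℕ) (F G : (𝓞 K)[X])
    (v : HeightOneSpectrum (𝓞 K)) : Prop :=
  ∃ (L : Type) (_ : Field L) (_ : NumberField L) (_ : Algebra K L)
    (g : Matrix (Fin 2) (Fin 2) L) (t : L) (F' G' : (𝓞 L)[X]),
    g.det ≠ 0 ∧ t ≠ 0 ∧ F'.natDegree ≤ d ∧ G'.natDegree ≤ d ∧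
    (∀ p : L × L, act g (lift d (F'.map (algebraMap (𝓞 L) L)) (G'.map (algebraMap (𝓞 L) L)) p) =
      t • lift d (F.map (algebraMap (𝓞 K) L)) (G.map (algebraMap (𝓞 K) L)) (act g p)) ∧
    ∀ w : HeightOneSpectrum (𝓞 L), (∀ a ∈ v.asIdeal, algebraMap (𝓞 K) (𝓞 L) a ∈ w.asIdeal) →
      resultant F' G' d d ∉ w.asIdeal

/-- For all `D`, `N`, `k`, `s` and `d ≥ 2` there is `C` such that for every number field `K` of
degree at most `D`, all `F`, `G` of degree at most `d` over `𝓞 K` with nonzero resultant `R` and all
ideals `I`, `M`, `J` with `I M = (R)`, `J ∣ (R)` and `N(I) ≤ N(J) ^ k`: if all prime divisors of `J`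
are `(N, k)`-defective, and all but at most `s` of the prime divisors of `M` are `(N, k)`-defective
or of potentially good reduction, then the extensions of `K` of degree at most `N` contain together
at most `C` points of the projective line which are preperiodic under `F / G`.

There is no condition on the height of `F / G`.  For `I = J = (1)` the condition is that all primes
of bad reduction outside a set of `s` primes are `(N, k)`-defective.  The points are represented by
vectors over a number field `L`, an arbitrary extension of `K`, no two of which are proportional;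
`DegLe K N p` says that both coordinates of `p` lie in a subextension of degree at most `N` over
`K`. -/
theorem result (D d N k s : ℕ) (hd : 2 ≤ d) : ∃ C : ℕ,
    ∀ (K : Type) [Field K] [NumberField K], Module.finrank ℚ K ≤ D →
    ∀ F G : (𝓞 K)[X], F.natDegree ≤ d → G.natDegree ≤ d → resultant F G d d ≠ 0 →
    ∀ I M J : Ideal (𝓞 K), I * M = Ideal.span {resultant F G d d} →
    J ∣ Ideal.span {resultant F G d d} → Ideal.absNorm I ≤ Ideal.absNorm J ^ k →
    (∀ v : HeightOneSpectrum (𝓞 K), v.asIdeal ∣ J → Defective d N k F G v) →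
    {v : HeightOneSpectrum (𝓞 K) |
      v.asIdeal ∣ M ∧ ¬ Defective d N k F G v ∧ ¬ PotGood d F G v}.ncard ≤ s →
    ∀ (L : Type) [Field L] [NumberField L] [Algebra K L], ∀ S : Finset (L × L),
      (∀ p ∈ S, DegLe K N p ∧
        Preper d (F.map (algebraMap (𝓞 K) L)) (G.map (algebraMap (𝓞 K) L)) p) →
      (∀ p ∈ S, ∀ q ∈ S, p ≠ q → wedge p q ≠ 0) → S.card ≤ C := by
  obtain ⟨C, hC⟩ := main_RI D N d k s hd
  refine ⟨C, ?_⟩
  intro K _ _ hK F G hF hG hR I M J hIM hJ hnorm hdef hs L _ _ _ S hS hSw
  exact hC K hK F G hF hG hR I M J hIM hs hJ hdef hnorm L S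
    (fun p hp => ⟨(hS p hp).1, (hS p hp).2⟩) hSw

end Pool.Agent.Results.MP_13bc7b_nt.RationalMaps
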