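import Pool.Agent.UBR.Fam

/-!
# Uniform bounds for rational periodic points of rational functions
-/

open Polynomial NumberField IsDedekindDomain OnePoint WithZero

namespace Pool.Agent.Results.MP_13bc7b_nt.RationalPeriods

/-- the degree of a rational function (as a map of the projective line) -/
noncomputable def degree {K : Type*} [Field K] (f : RatFunc K) : ℕ :=
  max f.num.natDegree f.denom.natDegree

/-- the point of the projective line `K ∪ {∞}` with homogeneous coordinates `[a : b]` -/
noncomputable def point {K : Type*} [Field K] [DecidableEq K] (a b : K) : OnePoint K :=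
  if b = 0 then ∞ else ((a / b : K) : OnePoint K)

/-- the value of a rational function `F / G` (in lowest terms, of degree `d`) at a point of the
projective line `K ∪ {∞}`: `[F(x) : G(x)]` at `x` in `K` and `[F_d : G_d]` at `∞`, where `F_d` and
`G_d` are the coefficients of degree `d` -/
noncomputable def value {K : Type*} [Field K] [DecidableEq K] (f : RatFunc K) (z : OnePoint K) :
    OnePoint K :=
  z.elim (point (f.num.coeff (degree f)) (f.denom.coeff (degree f)))
    (fun x => point (f.num.eval x) (f.denom.eval x))

/-- the composition of the rational functions in the list `l` (the first one is applied first), as a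
map from the projective line `K ∪ {∞}` to itself -/
noncomputable def composition {K : Type*} [Field K] [DecidableEq K] (l : List (RatFunc K))
    (z : OnePoint K) : OnePoint K :=
  l.foldl (fun w f => value f w) z

/-- the chordal distance `|x₁ y₂ - x₂ y₁| / (max(|x₁|, |x₂|) max(|y₁|, |y₂|))` of two points of the
projective line, with coordinates `[x : 1]` for `x` in `K` and `[1 : 0]` for `∞` -/
noncomputable def chordal {K : Type*} [Field K] (v : Valuation K ℤᵐ⁰) (x y : OnePoint K) : ℤᵐ⁰ :=
  v (x.elim 1 id * y.elim 0 (fun _ => 1) - x.elim 0 (fun _ => 1) * y.elim 1 id) /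
    (max (v (x.elim 1 id)) (v (x.elim 0 (fun _ => 1))) *
      max (v (y.elim 1 id)) (v (y.elim 0 (fun _ => 1))))

/-- The property of a set of maps from the projective line to itself at the prime `v`: there are a
Möbius transformation `σ` over `K` and a subset `U` of the projective line such that, `δ x y` being
the chordal distance of `σ x` and `σ y`, every map `f` in the set
* maps `U` to itself and satisfies `δ (f x) (f y) ≤ δ x y` for all `x, y` in `U`,
* has the following property: if `x, y, f x, f y` are not in `U`, then `δ x y` is an `n`-th power, or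
  `δ (f x) (f y) = γ ^ n * δ x y` with a number `γ > 1` (in the value group). -/
def Admissible {K : Type*} [Field K] [DecidableEq K] (n : ℕ) (v : Valuation K ℤᵐ⁰)
    (A : Set (OnePoint K → OnePoint K)) : Prop :=
  ∃ (σ : GL (Fin 2) K) (U : Set (OnePoint K)), ∀ f ∈ A,
    (∀ x ∈ U, f x ∈ U) ∧
    (∀ x ∈ U, ∀ y ∈ U, chordal v (σ • f x) (σ • f y) ≤ chordal v (σ • x) (σ • y)) ∧
    (∀ x y, x ∉ U → y ∉ U → f x ∉ U → f y ∉ U →
      (∃ γ : ℤᵐ⁰, chordal v (σ • x) (σ • y) = γ ^ n) ∨
      ∃ γ : ℤᵐ⁰, 1 < γ ∧ chordal v (σ • f x) (σ • f y) = γ ^ n * chordal v (σ • x) (σ • y))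

/-- The conclusion for the composition `Φ` of the functions in the list `l`, `D` its degree:
(a) the odd part of the exact period of every periodic point of `Φ` in `ℙ¹(K)` is at most `B`;
(b) `Φ` has at most `D ^ B` periodic points of odd exact period in `ℙ¹(K)`;
(c) if `n ≥ 6` is even, then the exact period of every periodic point of `Φ` in `ℙ¹(K)` is at most
`B`, and `Φ` has at most `D ^ B` periodic points in `ℙ¹(K)`.
(A point which is not periodic has `minimalPeriod` equal to `0`.) -/
def Bounded {K : Type*} [Field K] [DecidableEq K] (n B : ℕ) (l : List (RatFunc K)) : Prop :=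
  (∀ (x : OnePoint K) (e m : ℕ), Odd m →
    Function.minimalPeriod (composition l) x = 2 ^ e * m → m ≤ B) ∧
  {x : OnePoint K | Odd (Function.minimalPeriod (composition l) x)}.encard ≤
    ((((l.map degree).prod) ^ B : ℕ) : ℕ∞) ∧
  (6 ≤ n → Even n →
    (∀ x : OnePoint K, Function.minimalPeriod (composition l) x ≤ B) ∧
    {x : OnePoint K | x ∈ Function.periodicPts (composition l)}.encard ≤
      ((((l.map degree).prod) ^ B : ℕ) : ℕ∞))

/-- The zeros and the poles of `ψ` are simple, `∞` is not a zero and `0` is not a pole. -/
def SimpleZerosPoles {K : Type*} [Field K] (ψ : RatFunc K) : Prop :=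
  ψ.num.Separable ∧ ψ.denom.Separable ∧ ψ.denom.eval 0 ≠ 0 ∧
    ψ.denom.natDegree ≤ ψ.num.natDegree ∧ ψ.num.natDegree ≤ ψ.denom.natDegree + 1

/-- Let `K` be a number field and `n ≥ 4`.
Let `S` be a finite set of primes of `K`.  There is a number `B` such that the conclusion (`Bounded`)
holds for every nonempty finite list `l` of rational functions over `K` of degrees at least `2` which
is admissible for `n` at every prime `v` outside `S`.
In particular, let `T` be a finite set of rational functions over `K` of degrees at least `2` with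
simple zeros, all different from `∞`, and simple poles, all different from `0`.  There is a number `B`
such that the conclusion holds for all `b ≠ 0` in `K` and every nonempty finite list `l` of functions
of the form `b ^ n ψ(z)`, `ψ` in `T`. -/
theorem result (K : Type*) [Field K] [NumberField K] [DecidableEq K] (n : ℕ) (hn : 4 ≤ n) :
    (∀ S : Set (HeightOneSpectrum (𝓞 K)), S.Finite →
      ∃ B : ℕ, ∀ l : List (RatFunc K), l ≠ [] → (∀ f ∈ l, 2 ≤ degree f) →
        (∀ v : HeightOneSpectrum (𝓞 K), v ∉ S →
          Admissible n (v.valuation K) {g | ∃ f ∈ l, g = value f}) → Bounded n B l) ∧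
    (∀ T : Finset (RatFunc K), (∀ ψ ∈ T, 2 ≤ degree ψ ∧ SimpleZerosPoles ψ) →
      ∃ B : ℕ, ∀ b : K, b ≠ 0 → ∀ l : List (RatFunc K), l ≠ [] →
        (∀ f ∈ l, ∃ ψ ∈ T, f = RatFunc.C (b ^ n) * ψ) → Bounded n B l) := by
  constructor
  · intro S hS
    obtain ⟨B, hB⟩ := UBR.uniform_rat K hn S hS
    refine ⟨B, fun l hl hdeg hadm => hB l hl hdeg fun v hv => ?_⟩
    obtain ⟨σ, U, hσ⟩ := hadm v hv
    exact ⟨σ, U, fun f hf => ⟨(hσ f hf).1, (hσ f hf).2.1, (hσ f hf).2.2⟩⟩
  · intro T hT
    exact UBR.Fam.uniform_fam K hn T fun ψ hψ => hT ψ hψ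

end Pool.Agent.Results.MP_13bc7b_nt.RationalPeriods
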