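import Pool.Agent.UBC.TriPer
import Pool.Agent.UBC.Card

/-!
# Uniform bounds for periodic points of compositions of triangular maps of affine space
-/

namespace Pool.Agent.Results.MP_13bc7b_nt.UniformPeriodic

/-- `a` becomes an algebraic integer after multiplication by a power of `M` -/
def IntegralAway {K : Type*} [Field K] (M : ℕ) (a : K) : Prop :=
  ∃ k : ℕ, IsIntegral ℤ ((M : K) ^ k * a)

/-- the weight `∑ j, w j * s j` of the monomial with exponents `s` -/
def weight {n : ℕ} (w : Fin n → ℕ) (s : Fin n →₀ ℕ) : ℕ := ∑ j, w j * s j

/-- The map of `K ^ N` with parameter `c` given by `N` polynomials in the variables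
`x_0, x_1, …, x_N`: the `k`-th coordinate of the image of `x` is the value of the `k`-th polynomial
at `x_0 = c` and `x`. -/
noncomputable def stepMap {K : Type*} [Field K] {N : ℕ} (c : K)
    (P : Fin N → MvPolynomial (Fin (N + 1)) K) (x : Fin N → K) : Fin N → K :=
  fun k => MvPolynomial.eval (Fin.cons c x : Fin (N + 1) → K) (P k)

/-- the composition of the maps `stepMap c P`, `P` in the list `l` (the first element of the list
is applied first) -/
noncomputable def composition {K : Type*} [Field K] {N : ℕ} (c : K)
    (l : List (Fin N → MvPolynomial (Fin (N + 1)) K)) (x : Fin N → K) : Fin N → K :=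
  l.foldl (fun z P => stepMap c P z) x

/-- The condition on the polynomial `P` for the `k`-th coordinate (its own variable has the index
`k.succ`, the parameter has the index `0`).  All coefficients are integral outside `M`; there are
two monomials of weight `r * m * w k.succ`, the `r * m`-th power of the own variable and a
monomial `D` in the variables of smaller index, whose coefficients are units outside `M`; all
other monomials have smaller weight; no variable of index larger than `k.succ` occurs, and the own
variable occurs only in powers whose exponent is divisible by `r`. -/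
def Dominated {K : Type*} [Field K] {N : ℕ} (r m M : ℕ) (w : Fin (N + 1) → ℕ) (k : Fin N)
    (P : MvPolynomial (Fin (N + 1)) K) : Prop :=
  (∀ s, IntegralAway M (P.coeff s)) ∧
  P.coeff (Finsupp.single k.succ (r * m)) ≠ 0 ∧
  IntegralAway M (P.coeff (Finsupp.single k.succ (r * m)))⁻¹ ∧
  ∃ D : Fin (N + 1) →₀ ℕ, (∀ j, k.succ ≤ j → D j = 0) ∧ weight w D = r * m * w k.succ ∧
    P.coeff D ≠ 0 ∧ IntegralAway M (P.coeff D)⁻¹ ∧
    ∀ s ∈ P.support, (∀ j, k.succ < j → s j = 0) ∧ r ∣ s k.succ ∧
      (s = Finsupp.single k.succ (r * m) ∨ s = D ∨ weight w s < r * m * w k.succ)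

/-- Let `K` be a number field, `r m ≥ 5` and `M ≥ 1`.  There is a number `B` such that the
following holds for every `N`, every choice of positive weights `w`, every nonempty finite list
`l` of `N`-tuples of polynomials satisfying `Dominated`, and every `c` in `K`.
(a) The odd part of the exact period of every periodic point in `K ^ N` of the composition is at
most `B ^ N`.
(b) If `r m ≥ 7` is odd, then the exact period of every periodic point in `K ^ N` is at most
`B ^ N`.
(c) If `r ≥ 3`, then the composition has at most `B ^ N` periodic points in `K ^ N`.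
The number `B` does not depend on `N`, on the weights, on the polynomials, on the length of the
list or on `c`.  (A point which is not periodic has `minimalPeriod` equal to `0`.) -/
theorem result (K : Type*) [Field K] [NumberField K] (r m M : ℕ) (hrm : 5 ≤ r * m)
    (hM : 1 ≤ M) :
    ∃ B : ℕ, ∀ (N : ℕ) (w : Fin (N + 1) → ℕ) (l : List (Fin N → MvPolynomial (Fin (N + 1)) K))
      (c : K), (∀ j, 0 < w j) → l ≠ [] → (∀ P ∈ l, ∀ k, Dominated r m M w k (P k)) →
      (∀ (x : Fin N → K) (e q : ℕ), Odd q →
        Function.minimalPeriod (composition c l) x = 2 ^ e * q → q ≤ B ^ N) ∧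
      (7 ≤ r * m → Odd (r * m) →
        ∀ x : Fin N → K, Function.minimalPeriod (composition c l) x ≤ B ^ N) ∧
      (3 ≤ r → {x : Fin N → K | x ∈ Function.periodicPts (composition c l)}.encard ≤
          ((B ^ N : ℕ) : ℕ∞)) := by
  obtain ⟨B, hB⟩ := UBC.uniform_tri_all K hrm M (by omega)
  refine ⟨B, fun N w l c hw hl hgood => ?_⟩
  obtain ⟨h1, h2, h3⟩ := hB N w c l hw hl hgood
  exact ⟨h2, h3, fun hr => UBC.encard_le_of_finset fun Q hQ => h1 hr Q hQ⟩

end Pool.Agent.Results.MP_13bc7b_nt.UniformPeriodic
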